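import Pool.Agent.Helper73_ED.Statements

/-!
# Velocities of polynomial curves are tangent vectors
-/

set_option autoImplicit false
set_option maxHeartbeats 400000

open MvPolynomial
open scoped Polynomial

namespace Helper28_ED

open Helper73_ED

noncomputable section

variable {n : ℕ}

lemma vanishes_zclosure {S : Set (Fin n → ℂ)} {F : MvPolynomial (Fin n) ℂ} :
    Vanishes (zclosure S) F ↔ Vanishes S F := by
  constructor
  · intro h y hy
    exact h y fun G hG => hG y hy
  · intro h y hy
    exact hy F h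

lemma subset_zclosure {S : Set (Fin n → ℂ)} {y : Fin n → ℂ} (hy : y ∈ S) : y ∈ zclosure S :=
  fun _ hG => hG y hy

/-- The value of `F` along a polynomial curve. -/
lemma eval_aeval (γ : Fin n → ℂ[X]) (F : MvPolynomial (Fin n) ℂ) (τ : ℂ) :
    (aeval γ F).eval τ = eval (fun i => (γ i).eval τ) F := by
  induction F using MvPolynomial.induction_on with
  | C a => simp
  | add p q hp hq => simp [hp, hq]
  | mul_X p i hp => simp [hp]

/-- Chain rule. -/
lemma derivative_aeval (γ : Fin n → ℂ[X]) (F : MvPolynomial (Fin n) ℂ) :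
    Polynomial.derivative (aeval γ F) =
      ∑ i, aeval γ (pderiv i F) * Polynomial.derivative (γ i) := by
  induction F using MvPolynomial.induction_on with
  | C a => simp
  | add p q hp hq =>
    simp only [map_add, hp, hq, add_mul, Finset.sum_add_distrib]
  | mul_X p j hp =>
    have h1 : ∀ i, aeval γ (pderiv i (p * X j)) * Polynomial.derivative (γ i) =
        (aeval γ (pderiv i p) * Polynomial.derivative (γ i)) * γ j +
          (if i = j then aeval γ p * Polynomial.derivative (γ j) else 0) := by
      intro i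
      rw [Derivation.leibniz, pderiv_X]
      by_cases hij : i = j
      · subst hij
        simp
        ring
      · rw [Pi.single_eq_of_ne (Ne.symm hij)]
        simp [hij]
        ring
    simp only [h1, Finset.sum_add_distrib, ← Finset.sum_mul, ← hp]
    simp [Polynomial.derivative_mul]

/-- A polynomial curve which lies in `zclosure S` for nonzero parameters: its value at `0` lies in
`zclosure S` and its velocity at `0` is a tangent vector. -/
lemma curve {S : Set (Fin n → ℂ)} (γ : Fin n → ℂ[X])
    (h : ∀ τ : ℂ, τ ≠ 0 → (fun i => (γ i).eval τ) ∈ zclosure S) :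
    (fun i => (γ i).eval 0) ∈ zclosure S ∧
      (fun i => (Polynomial.derivative (γ i)).eval 0) ∈
        tangentSpace (zclosure S) (fun i => (γ i).eval 0) := by
  have key : ∀ F : MvPolynomial (Fin n) ℂ, Vanishes S F → aeval γ F = 0 := by
    intro F hF
    have h1 : Polynomial.X * aeval γ F = 0 := by
      refine Polynomial.funext fun τ => ?_
      rw [Polynomial.eval_mul, Polynomial.eval_X, Polynomial.eval_zero, eval_aeval]
      by_cases hτ : τ = 0
      · rw [hτ, zero_mul]
      · rw [h τ hτ F hF, mul_zero]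
    exact (mul_eq_zero.1 h1).resolve_left Polynomial.X_ne_zero
  refine ⟨fun F hF => ?_, ?_⟩
  · rw [← eval_aeval, key F hF, Polynomial.eval_zero]
  · show ∀ F : MvPolynomial (Fin n) ℂ, Vanishes (zclosure S) F →
      ∑ i, eval (fun i => (γ i).eval 0) (pderiv i F) *
        (Polynomial.derivative (γ i)).eval 0 = 0
    intro F hF
    have h2 := congrArg (Polynomial.eval 0) (derivative_aeval γ F)
    rw [key F (vanishes_zclosure.1 hF), Polynomial.derivative_zero, Polynomial.eval_zero,
      Polynomial.eval_finsetSum] at h2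
    refine Eq.trans ?_ h2.symm
    refine Finset.sum_congr rfl fun i _ => ?_
    rw [Polynomial.eval_mul, eval_aeval]

/-- Version with prescribed base point and velocity. -/
lemma curve' {S : Set (Fin n → ℂ)} {x v : Fin n → ℂ} (γ : Fin n → ℂ[X])
    (hx : ∀ i, (γ i).eval 0 = x i) (hv : ∀ i, (Polynomial.derivative (γ i)).eval 0 = v i)
    (h : ∀ τ : ℂ, τ ≠ 0 → (fun i => (γ i).eval τ) ∈ zclosure S) :
    x ∈ zclosure S ∧ v ∈ tangentSpace (zclosure S) x := by
  have h1 := curve γ h
  have hx' : (fun i => (γ i).eval 0) = x := funext hx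
  have hv' : (fun i => (Polynomial.derivative (γ i)).eval 0) = v := funext hv
  rwa [hx', hv'] at h1

/-- Scalars can be absorbed. -/
lemma smul_pw {d : ℕ} (hd : 1 ≤ d) (α z w : ℂ) : ∃ z' w' : ℂ, α • pw d z w = pw d z' w' := by
  obtain ⟨c, hc⟩ := IsAlgClosed.exists_pow_nat_eq α (by omega : 0 < d)
  refine ⟨c * z, c * w, ?_⟩
  funext j
  have hj : (j : ℕ) ≤ d := Nat.lt_succ_iff.1 j.2
  simp only [pw, Pi.smul_apply, smul_eq_mul, mul_pow]
  have h1 : c ^ (d - (j : ℕ)) * c ^ (j : ℕ) = α := by
    rw [← pow_add, Nat.sub_add_cancel hj, hc]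
  rw [← h1]
  ring

lemma comb_mem {d : ℕ} (hd : 1 ≤ d) (α β z w z' w' : ℂ) :
    α • pw d z w + β • pw d z' w' ∈ zclosure (secY d) := by
  obtain ⟨a, b, h1⟩ := smul_pw hd α z w
  obtain ⟨a', b', h2⟩ := smul_pw hd β z' w'
  exact subset_zclosure ⟨a, b, a', b', by rw [h1, h2]⟩

lemma mom_zero (d : ℕ) (s : ℂ) : mom d 0 s = pw d s 1 := by
  funext j
  simp [mom, pw]

lemma dl_zero (d : ℕ) : dl d 0 = pw d 1 0 := by
  funext j
  simp only [dl, pw, one_pow, one_mul]
  split_ifs with h
  · simp [h]
  · simp [h]

end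

end Helper28_ED
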