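import Pool.Agent.Helper28_ED.Curve

/-!
# Modules G2, G3, G4, G5: tangent spaces of the secant variety
-/

set_option autoImplicit false
set_option maxHeartbeats 400000

open MvPolynomial
open scoped Polynomial

namespace Helper28_ED

open Helper73_ED

noncomputable section

/-- Four linearly independent vectors in a submodule. -/
lemma four_le {m : ℕ} (T : Submodule ℂ (Fin m → ℂ)) (v : Fin 4 → Fin m → ℂ) (hv : ∀ i, v i ∈ T)
    (hli : LinearIndependent ℂ v) : 4 ≤ Module.finrank ℂ T := by
  have h1 : LinearIndependent ℂ (fun i => (⟨v i, hv i⟩ : T)) := by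
    refine LinearIndependent.of_comp T.subtype ?_
    exact hli
  simpa using h1.fintype_card_le_finrank

/-- Linear independence from a triangular system of coordinates. -/
lemma li_of_coords {m : ℕ} (v : Fin 4 → Fin m → ℂ) (j : Fin 4 → Fin m)
    (hdiag : ∀ i, v i (j i) ≠ 0) (htri : ∀ i k : Fin 4, k < i → v i (j k) = 0) :
    LinearIndependent ℂ v := by
  rw [Fintype.linearIndependent_iff]
  intro g hg
  have h : ∀ k : Fin 4, ∑ i, g i * v i (j k) = 0 := by
    intro k
    have := congrFun hg (j k)
    simpa [Finset.sum_apply] using this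
  have e0 := h 0
  have e1 := h 1
  have e2 := h 2
  have e3 := h 3
  rw [Fin.sum_univ_four] at e0 e1 e2 e3
  rw [htri 1 0 (by decide), htri 2 0 (by decide), htri 3 0 (by decide)] at e0
  rw [htri 2 1 (by decide), htri 3 1 (by decide)] at e1
  rw [htri 3 2 (by decide)] at e2
  have g0 : g 0 = 0 := by
    have : g 0 * v 0 (j 0) = 0 := by linear_combination e0
    exact (mul_eq_zero.1 this).resolve_right (hdiag 0)
  rw [g0] at e1 e2 e3
  have g1 : g 1 = 0 := by
    have : g 1 * v 1 (j 1) = 0 := by linear_combination e1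
    exact (mul_eq_zero.1 this).resolve_right (hdiag 1)
  rw [g1] at e2 e3
  have g2 : g 2 = 0 := by
    have : g 2 * v 2 (j 2) = 0 := by linear_combination e2
    exact (mul_eq_zero.1 this).resolve_right (hdiag 2)
  rw [g2] at e3
  have g3 : g 3 = 0 := by
    have : g 3 * v 3 (j 3) = 0 := by linear_combination e3
    exact (mul_eq_zero.1 this).resolve_right (hdiag 3)
  intro i
  fin_cases i
  · exact g0
  · exact g1
  · exact g2
  · exact g3

/-! ## G5 -/

theorem tangentOne : TangentOneStatement := by
  intro d hd α z w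
  have h1 : ∀ z' w' : ℂ, pw d z' w' ∈ tangentSpace (zclosure (secY d)) (α • pw d z w) := by
    intro z' w'
    refine (curve' (S := secY d) (x := α • pw d z w) (v := pw d z' w')
      (fun i => Polynomial.C (α * pw d z w i) + Polynomial.X * Polynomial.C (pw d z' w' i))
      ?_ ?_ ?_).2
    · intro i
      simp
    · intro i
      simp
    · intro τ _
      have := comb_mem hd α τ z w z' w'
      convert this using 1
      funext i
      simp
      ring
  have hdet : (Matrix.vandermonde (fun i : Fin (d + 1) => ((i : ℕ) : ℂ))).det ≠ 0 := by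
    rw [Matrix.det_vandermonde_ne_zero_iff]
    intro i j hij
    have : ((i : ℕ) : ℂ) = ((j : ℕ) : ℂ) := hij
    exact Fin.ext (by exact_mod_cast this)
  have hli : LinearIndependent ℂ (fun i : Fin (d + 1) => pw d 1 ((i : ℕ) : ℂ)) := by
    have h2 := Matrix.linearIndependent_rows_of_det_ne_zero hdet
    have h3 : (fun i : Fin (d + 1) => pw d 1 ((i : ℕ) : ℂ)) =
        fun i => Matrix.vandermonde (fun i : Fin (d + 1) => ((i : ℕ) : ℂ)) i := by
      funext i j
      simp [pw, Matrix.vandermonde]
    rw [h3]
    exact h2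
  have hspan := hli.span_eq_top_of_card_eq_finrank (by simp)
  rw [eq_top_iff, ← hspan, Submodule.span_le]
  rintro _ ⟨i, rfl⟩
  exact h1 1 _

/-! ## G2 -/

lemma mom_eval_succ (d : ℕ) (s : ℂ) (j : Fin (d + 1)) :
    mom d 1 s j = Polynomial.eval 0
      (Polynomial.derivative ((Polynomial.C s + Polynomial.X) ^ (d - (j : ℕ)))) := by
  simp [mom, Polynomial.derivative_pow]

theorem tangentInf : TangentInfStatement := by
  intro d hd s α β hα hβ
  have hd1 : 1 ≤ d := by omega
  have e0 : mom d 0 s ∈ tangentSpace (zclosure (secY d)) (α • mom d 0 s + β • dl d 0) := by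
    refine (curve' (S := secY d) (x := α • mom d 0 s + β • dl d 0) (v := mom d 0 s)
      (fun i => Polynomial.C (α * mom d 0 s i + β * dl d 0 i) +
        Polynomial.X * Polynomial.C (mom d 0 s i)) ?_ ?_ ?_).2
    · intro i; simp
    · intro i; simp
    · intro τ _
      have := comb_mem hd1 (α + τ) β s 1 1 0
      rw [← mom_zero, ← dl_zero] at this
      convert this using 1
      funext i
      simp
      ring
  have e2 : dl d 0 ∈ tangentSpace (zclosure (secY d)) (α • mom d 0 s + β • dl d 0) := by
    refine (curve' (S := secY d) (x := α • mom d 0 s + β • dl d 0) (v := dl d 0)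
      (fun i => Polynomial.C (α * mom d 0 s i + β * dl d 0 i) +
        Polynomial.X * Polynomial.C (dl d 0 i)) ?_ ?_ ?_).2
    · intro i; simp
    · intro i; simp
    · intro τ _
      have := comb_mem hd1 α (β + τ) s 1 1 0
      rw [← mom_zero, ← dl_zero] at this
      convert this using 1
      funext i
      simp
      ring
  have e1 : mom d 1 s ∈ tangentSpace (zclosure (secY d)) (α • mom d 0 s + β • dl d 0) := by
    have h1 : α • mom d 1 s ∈
        tangentSpace (zclosure (secY d)) (α • mom d 0 s + β • dl d 0) := by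
      refine (curve' (S := secY d) (x := α • mom d 0 s + β • dl d 0) (v := α • mom d 1 s)
        (fun i => Polynomial.C α * (Polynomial.C s + Polynomial.X) ^ (d - (i : ℕ)) +
          Polynomial.C (β * dl d 0 i)) ?_ ?_ ?_).2
      · intro i
        simp [mom]
      · intro i
        rw [Pi.smul_apply, mom_eval_succ]
        simp
      · intro τ _
        have := comb_mem hd1 α β (s + τ) 1 1 0
        rw [← dl_zero] at this
        convert this using 1
        funext i
        simp [pw]
    have h2 := Submodule.smul_mem _ α⁻¹ h1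
    rwa [smul_smul, inv_mul_cancel₀ hα, one_smul] at h2
  have e3 : dl d 1 ∈ tangentSpace (zclosure (secY d)) (α • mom d 0 s + β • dl d 0) := by
    have h1 : β • dl d 1 ∈
        tangentSpace (zclosure (secY d)) (α • mom d 0 s + β • dl d 0) := by
      refine (curve' (S := secY d) (x := α • mom d 0 s + β • dl d 0) (v := β • dl d 1)
        (fun i => Polynomial.C (α * mom d 0 s i) + Polynomial.C β * Polynomial.X ^ (i : ℕ))
        ?_ ?_ ?_).2
      · intro i
        by_cases hi : (i : ℕ) = 0
        · simp [dl, hi]
        · simp [dl, hi]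
      · intro i
        by_cases hi : (i : ℕ) = 1
        · simp [dl, hi]
        · by_cases hi0 : (i : ℕ) = 0
          · simp [dl, hi0]
          · have : (i : ℕ) - 1 ≠ 0 := by omega
            simp [dl, hi, Polynomial.derivative_X_pow, this]
      · intro τ _
        have := comb_mem hd1 α β s 1 1 τ
        rw [← mom_zero] at this
        convert this using 1
        funext i
        simp [pw]
    have h2 := Submodule.smul_mem _ β⁻¹ h1
    rwa [smul_smul, inv_mul_cancel₀ hβ, one_smul] at h2
  refine ⟨e0, e1, e2, e3, ?_⟩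
  refine four_le _ ![mom d 0 s, mom d 1 s, dl d 0, dl d 1] ?_ ?_
  · intro i
    fin_cases i
    · exact e0
    · exact e1
    · exact e2
    · exact e3
  · refine li_of_coords _ ![⟨d, by omega⟩, ⟨d - 1, by omega⟩, ⟨0, by omega⟩, ⟨1, by omega⟩] ?_ ?_
    · intro i
      fin_cases i
      · simp [mom]
      · have : d - (d - 1) = 1 := by omega
        simp [mom, this]
      · simp [dl]
      · simp [dl]
    · intro i k hik
      have h3 : d - (d - 1) = 1 := by omega
      have h4 : d ≠ 0 := by omega
      have h5 : d - 1 ≠ 0 := by omega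
      have h6 : d ≠ 1 := by omega
      have h7 : d - 1 ≠ 1 := by omega
      fin_cases i <;> fin_cases k <;> first
        | (exfalso; revert hik; decide)
        | simp [mom, dl, h3, h4, h5, h6, h7]

/-! ## G3 and G4 -/

lemma sum_range_two_mul (f : ℕ → ℂ) (M : ℕ) :
    ∑ k ∈ Finset.range (2 * M), f k = ∑ k ∈ Finset.range M, (f (2 * k) + f (2 * k + 1)) := by
  induction M with
  | zero => simp
  | succ M ih =>
    rw [show 2 * (M + 1) = 2 * M + 1 + 1 by ring, Finset.sum_range_succ, Finset.sum_range_succ,
      Finset.sum_range_succ, ih]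
    ring

/-- Abstract form of G3 and G4. -/
lemma double {d M : ℕ} (hM : 2 ≤ M) (c : ℂ → Fin (d + 1) → ℂ) (e : ℕ → ℂ → Fin (d + 1) → ℂ)
    (hc : ∀ α β σ σ' : ℂ, α • c σ + β • c σ' ∈ zclosure (secY d))
    (he : ∀ s ε : ℂ, ∀ j, c (s + ε) j = ∑ k ∈ Finset.range (2 * M), ε ^ k * e k s j)
    (he1 : ∀ k ≤ 1, ∀ s ε : ℂ, ∀ j, e k (s + ε) j =
      ∑ l ∈ Finset.range (2 * M), (k + l).choose k * ε ^ l * e (k + l) s j)
    (s α β : ℂ) (hβ : β ≠ 0) :
    ∀ k < 4, e k s ∈ tangentSpace (zclosure (secY d)) (α • e 0 s + β • e 1 s) := by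
  -- the two-parameter family of curves
  have h1 : ∀ s a a' b b' : ℂ, a • e 0 s + b • e 1 s ∈ zclosure (secY d) ∧
      a' • e 0 s + b' • e 1 s + (a • e 2 s + b • e 3 s) ∈
        tangentSpace (zclosure (secY d)) (a • e 0 s + b • e 1 s) := by
    intro s a a' b b'
    refine curve' (S := secY d)
      (fun i => ∑ k ∈ Finset.range M, Polynomial.X ^ k *
        ((Polynomial.C a + Polynomial.C a' * Polynomial.X) * Polynomial.C (e (2 * k) s i) +
        (Polynomial.C b + Polynomial.C b' * Polynomial.X) * Polynomial.C (e (2 * k + 1) s i)))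
      ?_ ?_ ?_
    · intro i
      obtain ⟨M', rfl⟩ : ∃ M', M = M' + 1 := ⟨M - 1, by omega⟩
      rw [Polynomial.eval_finsetSum, Finset.sum_range_succ']
      simp
    · intro i
      obtain ⟨M', rfl⟩ : ∃ M', M = M' + 1 + 1 := ⟨M - 2, by omega⟩
      rw [Polynomial.derivative_sum, Polynomial.eval_finsetSum, Finset.sum_range_succ',
        Finset.sum_range_succ']
      have h0 : ∀ k : ℕ, Polynomial.eval 0 (Polynomial.derivative
          ((Polynomial.X : ℂ[X]) ^ (k + 1 + 1) *
        ((Polynomial.C a + Polynomial.C a' * Polynomial.X) *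
          Polynomial.C (e (2 * (k + 1 + 1)) s i) +
        (Polynomial.C b + Polynomial.C b' * Polynomial.X) *
          Polynomial.C (e (2 * (k + 1 + 1) + 1) s i)))) = 0 := by
        intro k
        simp [Polynomial.derivative_mul]
      rw [Finset.sum_eq_zero fun k _ => h0 k]
      simp
      ring
    · intro τ hτ
      obtain ⟨ε, hε⟩ := IsAlgClosed.exists_pow_nat_eq τ (by norm_num : 0 < 2)
      have hε0 : ε ≠ 0 := by
        rintro rfl
        apply hτ
        rw [← hε]
        norm_num
      have h2 := hc ((a + a' * τ) / 2 + (b + b' * τ) / (2 * ε))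
        ((a + a' * τ) / 2 - (b + b' * τ) / (2 * ε)) (s + ε) (s + -ε)
      convert h2 using 1
      funext j
      simp only [Pi.add_apply, Pi.smul_apply, smul_eq_mul, he, sum_range_two_mul,
        Polynomial.eval_finsetSum]
      rw [Finset.mul_sum, Finset.mul_sum, ← Finset.sum_add_distrib]
      refine Finset.sum_congr rfl fun k _ => ?_
      simp only [Polynomial.eval_mul, Polynomial.eval_add, Polynomial.eval_pow,
        Polynomial.eval_X, Polynomial.eval_C]
      rw [pow_succ, pow_succ, pow_mul, pow_mul, neg_sq, hε]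
      field_simp
      ring
  have hA := (h1 s α 0 β 0).2
  have hB := (h1 s α 1 β 0).2
  have hC := (h1 s α 0 β 1).2
  have m0 : e 0 s ∈ tangentSpace (zclosure (secY d)) (α • e 0 s + β • e 1 s) := by
    have := Submodule.sub_mem _ hB hA
    convert this using 1
    module
  have m1 : e 1 s ∈ tangentSpace (zclosure (secY d)) (α • e 0 s + β • e 1 s) := by
    have := Submodule.sub_mem _ hC hA
    convert this using 1
    module
  have m2 : e 2 s ∈ tangentSpace (zclosure (secY d)) (α • e 0 s + β • e 1 s) := by
    have h3 : α • e 1 s + (2 * β) • e 2 s ∈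
        tangentSpace (zclosure (secY d)) (α • e 0 s + β • e 1 s) := by
      refine (curve' (S := secY d)
        (fun i => ∑ l ∈ Finset.range (2 * M), Polynomial.X ^ l *
          Polynomial.C (α * e l s i + β * ((1 + l : ℕ) : ℂ) * e (1 + l) s i)) ?_ ?_ ?_).2
      · intro i
        obtain ⟨M', rfl⟩ : ∃ M', M = M' + 1 := ⟨M - 1, by omega⟩
        rw [Polynomial.eval_finsetSum, show 2 * (M' + 1) = 2 * M' + 1 + 1 by ring,
          Finset.sum_range_succ']
        simp
      · intro i
        obtain ⟨M', rfl⟩ : ∃ M', M = M' + 1 := ⟨M - 1, by omega⟩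
        rw [Polynomial.derivative_sum, Polynomial.eval_finsetSum,
          show 2 * (M' + 1) = 2 * M' + 1 + 1 by ring, Finset.sum_range_succ',
          Finset.sum_range_succ']
        have h0 : ∀ k : ℕ, Polynomial.eval 0 (Polynomial.derivative
            ((Polynomial.X : ℂ[X]) ^ (k + 1 + 1) *
            Polynomial.C (α * e (k + 1 + 1) s i + β * ((1 + (k + 1 + 1) : ℕ) : ℂ) *
              e (1 + (k + 1 + 1)) s i))) = 0 := by
          intro k
          simp [Polynomial.derivative_mul]
        rw [Finset.sum_eq_zero fun k _ => h0 k]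
        simp
        left
        ring
      · intro τ _
        have h4 := (h1 (s + τ) α 0 β 0).1
        convert h4 using 1
        funext j
        simp only [Pi.add_apply, Pi.smul_apply, smul_eq_mul, he1 0 (by norm_num),
          he1 1 (by norm_num), Polynomial.eval_finsetSum]
        rw [Finset.mul_sum, Finset.mul_sum, ← Finset.sum_add_distrib]
        refine Finset.sum_congr rfl fun k _ => ?_
        simp
        ring
    have h5 : (2 * β) • e 2 s ∈ tangentSpace (zclosure (secY d)) (α • e 0 s + β • e 1 s) := by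
      have := Submodule.sub_mem _ h3 (Submodule.smul_mem _ α m1)
      rwa [add_sub_cancel_left] at this
    have h6 := Submodule.smul_mem _ (2 * β)⁻¹ h5
    rwa [smul_smul, inv_mul_cancel₀ (by simpa using hβ), one_smul] at h6
  have m3 : e 3 s ∈ tangentSpace (zclosure (secY d)) (α • e 0 s + β • e 1 s) := by
    have h5 : β • e 3 s ∈ tangentSpace (zclosure (secY d)) (α • e 0 s + β • e 1 s) := by
      have := Submodule.sub_mem _ hA (Submodule.smul_mem _ α m2)
      convert this using 1
      module
    have h6 := Submodule.smul_mem _ β⁻¹ h5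
    rwa [smul_smul, inv_mul_cancel₀ hβ, one_smul] at h6
  intro k hk
  interval_cases k
  · exact m0
  · exact m1
  · exact m2
  · exact m3

/-- Taylor expansion of a power, with enough terms. -/
lemma pow_taylor (n N : ℕ) (hN : n < N) (s ε : ℂ) :
    (s + ε) ^ n = ∑ k ∈ Finset.range N, (n.choose k : ℂ) * s ^ (n - k) * ε ^ k := by
  rw [add_comm s ε, add_pow]
  have h1 : Finset.range (n + 1) ⊆ Finset.range N := by
    intro x hx
    rw [Finset.mem_range] at hx ⊢
    omega
  rw [← Finset.sum_subset h1]
  · refine Finset.sum_congr rfl fun k _ => ?_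
    ring
  · intro k _ hk
    rw [Finset.mem_range, not_lt] at hk
    rw [Nat.choose_eq_zero_of_lt (by omega)]
    simp

/-- Derivative form. -/
lemma choose_taylor (n k N : ℕ) (hN : n < N) (s ε : ℂ) :
    (n.choose k : ℂ) * (s + ε) ^ (n - k) =
      ∑ l ∈ Finset.range N, ((k + l).choose k : ℂ) * ε ^ l *
        ((n.choose (k + l) : ℂ) * s ^ (n - (k + l))) := by
  rw [pow_taylor (n - k) N (by omega), Finset.mul_sum]
  refine Finset.sum_congr rfl fun l _ => ?_
  have h1 : n.choose k * (n - k).choose l = (k + l).choose k * n.choose (k + l) := by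
    by_cases h : k + l ≤ n
    · have := Nat.choose_mul (n := n) (k := k + l) (s := k) (by omega)
      rw [Nat.add_sub_cancel_left] at this
      rw [← this]
      ring
    · rw [Nat.choose_eq_zero_of_lt (by omega : n < k + l)]
      by_cases h2 : k ≤ n
      · rw [Nat.choose_eq_zero_of_lt (by omega : n - k < l)]
        simp
      · rw [Nat.choose_eq_zero_of_lt (by omega : n < k)]
        simp
  have h2 : ((n.choose k : ℕ) : ℂ) * ((n - k).choose l : ℕ) =
      ((k + l).choose k : ℕ) * (n.choose (k + l) : ℕ) := by
    exact_mod_cast h1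
  rw [show n - (k + l) = n - k - l by omega]
  linear_combination s ^ (n - k - l) * ε ^ l * h2

theorem tangentDouble : TangentDoubleStatement := by
  intro d hd s α β hβ
  have h1 := double (d := d) (M := d + 1) (by omega) (fun σ => pw d σ 1) (fun k σ => mom d k σ)
    (fun α β σ σ' => comb_mem (by omega) α β σ 1 σ' 1)
    (fun s ε j => by
      simp only [pw, one_pow, mul_one, mom]
      rw [pow_taylor (d - (j : ℕ)) (2 * (d + 1)) (by omega)]
      exact Finset.sum_congr rfl fun k _ => by ring)
    (fun k _ s ε j => by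
      simp only [mom]
      exact choose_taylor (d - (j : ℕ)) k (2 * (d + 1)) (by omega) s ε)
    s α β hβ
  refine ⟨h1, ?_⟩
  refine four_le _ ![mom d 0 s, mom d 1 s, mom d 2 s, mom d 3 s] ?_ ?_
  · intro i
    fin_cases i
    · exact h1 0 (by norm_num)
    · exact h1 1 (by norm_num)
    · exact h1 2 (by norm_num)
    · exact h1 3 (by norm_num)
  · have e1 : d - (d - 1) = 1 := by omega
    have e2 : d - (d - 2) = 2 := by omega
    have e3 : d - (d - 3) = 3 := by omega
    refine li_of_coords _ ![⟨d, by omega⟩, ⟨d - 1, by omega⟩, ⟨d - 2, by omega⟩,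
      ⟨d - 3, by omega⟩] ?_ ?_
    · intro i
      fin_cases i <;> simp [mom, e1, e2, e3]
    · intro i k hik
      fin_cases i <;> fin_cases k <;> first
        | (exfalso; revert hik; decide)
        | simp [mom, e1, e2]

theorem tangentDoubleInf : TangentDoubleInfStatement := by
  intro d hd α β hβ
  have h1 := double (d := d) (M := d + 1) (by omega) (fun σ => pw d 1 σ)
    (fun k σ => fun j : Fin (d + 1) => (((j : ℕ).choose k : ℕ) : ℂ) * σ ^ ((j : ℕ) - k))
    (fun α β σ σ' => comb_mem (by omega) α β 1 σ 1 σ')
    (fun s ε j => by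
      simp only [pw, one_pow, one_mul]
      rw [pow_taylor (j : ℕ) (2 * (d + 1)) (by omega)]
      exact Finset.sum_congr rfl fun k _ => by ring)
    (fun k _ s ε j => by
      exact choose_taylor (j : ℕ) k (2 * (d + 1)) (by omega) s ε)
    0 α β hβ
  have h2 : ∀ k, (fun j : Fin (d + 1) => (((j : ℕ).choose k : ℕ) : ℂ) * 0 ^ ((j : ℕ) - k)) =
      dl d k := by
    intro k
    funext j
    simp only [dl]
    rcases lt_trichotomy (j : ℕ) k with h | h | h
    · rw [Nat.choose_eq_zero_of_lt h, if_neg (by omega)]
      simp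
    · rw [if_pos h, h]
      simp
    · rw [if_neg (by omega), zero_pow (by omega)]
      simp
  simp only [h2] at h1
  refine ⟨h1 0 (by norm_num), ?_⟩
  refine four_le _ ![dl d 0, dl d 1, dl d 2, dl d 3] ?_ ?_
  · intro i
    fin_cases i
    · exact h1 0 (by norm_num)
    · exact h1 1 (by norm_num)
    · exact h1 2 (by norm_num)
    · exact h1 3 (by norm_num)
  · refine li_of_coords _ ![⟨0, by omega⟩, ⟨1, by omega⟩, ⟨2, by omega⟩, ⟨3, by omega⟩] ?_ ?_
    · intro i
      fin_cases i <;> simp [dl]
    · intro i k hik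
      fin_cases i <;> fin_cases k <;> first
        | (exfalso; revert hik; decide)
        | simp [dl]

end

end Helper28_ED
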